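import Pool.Agent.Q176.L2Y.YCc

/-!
# Project L2Y (helper255), job YC: all mixed moments over all intervals
-/

set_option autoImplicit false

namespace Pool.Agent.Q176.L2Y.YC

open Filter Topology MeasureTheory Finset
open Pool.Agent.Q255.IC Pool.Agent.Q255.IR Pool.Agent.Q255.EP Pool.Agent.Q255.L2 Pool.Agent.Q255.L2Y
open Pool.Agent.Q65.L2.Fou (ee_norm ee_add ee_int ee_cont)
open Pool.Agent.Q176.L2.GMC

/-- common constants -/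
theorem adm_unif {ι : Type} [Fintype ι] (V V' : ι → ℝ → ℝ) (h : ∀ i, Adm (V i) (V' i)) :
    ∃ C₀ c₀ : ℝ, 0 ≤ C₀ ∧ 0 < c₀ ∧ ∀ i, Ad C₀ c₀ (V i) (V' i) := by
  choose C c hc hV using h
  have hsum : 0 ≤ ∑ i, (c i)⁻¹ := sum_nonneg fun i _ => (inv_pos.2 (hc i)).le
  refine ⟨∑ i, |C i|, (1 + ∑ i, (c i)⁻¹)⁻¹, sum_nonneg fun i _ => abs_nonneg _, by positivity, fun i u hu => ?_⟩
  have h1 : |C i| ≤ ∑ i, |C i| := single_le_sum (f := fun i => |C i|) (fun i _ => abs_nonneg _) (mem_univ i)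
  have h2 : (c i)⁻¹ ≤ ∑ i, (c i)⁻¹ :=
    single_le_sum (f := fun i => (c i)⁻¹) (fun i _ => (inv_pos.2 (hc i)).le) (mem_univ i)
  have h3 : (1 + ∑ i, (c i)⁻¹)⁻¹ ≤ c i := by
    rw [inv_le_comm₀ (by positivity) (hc i)]
    linarith
  have h4 : C i * Real.exp (-(c i * u)) ≤ (∑ i, |C i|) * Real.exp (-((1 + ∑ i, (c i)⁻¹)⁻¹ * u)) := by
    have h5 : C i * Real.exp (-(c i * u)) ≤ |C i| * Real.exp (-(c i * u)) :=
      mul_le_mul_of_nonneg_right (le_abs_self _) (Real.exp_pos _).le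
    refine h5.trans (mul_le_mul h1 ?_ (Real.exp_pos _).le (sum_nonneg fun i _ => abs_nonneg _))
    apply Real.exp_le_exp.2
    have := mul_le_mul_of_nonneg_right h3 hu.le
    linarith
  exact ⟨(hV i u hu).1, (hV i u hu).2.1.trans h4, (hV i u hu).2.2.trans (div_le_div_of_nonneg_right h4 hu.le)⟩

/-- the arithmetic of the net -/
theorem netnum (k : ℕ) (K S : ℝ) (hS : 0 < S) :
    (2 * S ^ 2) ^ k * (k * (K * S ^ 2) ^ k * (K / S ^ (4 * k + 1))) = 2 ^ k * k * K ^ (k + 1) * (1 / S) := by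
  rw [mul_pow, mul_pow, ← pow_mul, show 4 * k + 1 = 2 * k + 2 * k + 1 by ring, pow_succ S, pow_add]
  field_simp
  ring

/-- the Fourier coefficients at the scale `2 J` -/
theorem coefY {ι : Type} [Fintype ι] (a : ι → ℕ → ℝ) (V : ι → ℝ → ℝ) {h₀ h₁ η K Q : ℝ} (k Z : ℕ) (hK : 1 ≤ K) (J : ℕ)
    (hapx : ∀ (i : ι) (b : Bool) (u y : ℝ), h₀ / 2 ^ J ≤ y → y ≤ h₁ / 2 ^ J →
        ∃ β' ∈ YF a V h₀ h₁ η Z (4 * k + 5) J, ∀ m : ℤ, ‖us b (a i) (V i) (4 ^ J) y u m‖ ≤ K * (2 ^ J) ^ 2 ∧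
          ‖β' m‖ ≤ K * (2 ^ J) ^ 2 ∧ ‖us b (a i) (V i) (4 ^ J) y u m - β' m‖ ≤ K / (2 ^ J) ^ (4 * k + 1))
    {χ : ℕ → ℝ} (hχ : ∀ n, |χ n| ≤ 1)
    (hQ : ∀ β : Fin k → ℤ → ℂ, (∀ j, β j ∈ YF a V h₀ h₁ η Z (4 * k + 5) J) → ∀ h : ℤ, |h| ≤ 2 ^ (2 * J) →
      ‖TS χ k (2 ^ (2 * J)) h β - if h = 0 then DB k (2 ^ (2 * J)) β else 0‖ ≤ Q)
    (i : Fin k → ι) (b : Fin k → Bool) (u y : Fin k → ℝ) (hy : ∀ j, h₀ / 2 ^ J ≤ y j ∧ y j ≤ h₁ / 2 ^ J)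
    (h : ℤ) (hh : |h| ≤ 2 ^ (2 * J)) :
    ‖TS χ k (2 ^ (2 * J)) h (fun j => us (b j) (a (i j)) (V (i j)) (4 ^ J) (y j) (u j)) -
      if h = 0 then DB k (2 ^ (2 * J)) (fun j => us (b j) (a (i j)) (V (i j)) (4 ^ J) (y j) (u j)) else 0‖ ≤
      Q + 2 * (2 ^ k * k * K ^ (k + 1) * (1 / (2 : ℝ) ^ J)) := by
  have hap := fun j => hapx (i j) (b j) (u j) (y j) (hy j).1 (hy j).2
  choose β' hβ' hb using hap
  obtain ⟨β, hβ⟩ : ∃ β : Fin k → ℤ → ℂ, β = fun j => us (b j) (a (i j)) (V (i j)) (4 ^ J) (y j) (u j) := ⟨_, rfl⟩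
  have hβj : ∀ j, us (b j) (a (i j)) (V (i j)) (4 ^ J) (y j) (u j) = β j := fun j => by rw [hβ]
  simp_rw [hβj] at hb
  rw [← hβ]
  obtain ⟨S, hS⟩ : ∃ S : ℝ, S = 2 ^ J := ⟨_, rfl⟩
  have hS1 : 1 ≤ S := by
    rw [hS]
    exact one_le_pow₀ (by norm_num)
  have hS0 : 0 < S := by linarith
  rw [← hS] at hb ⊢
  have hX : (((2 ^ (2 * J) : ℕ)) : ℝ) = S ^ 2 := by
    rw [hS]
    push_cast
    rw [← pow_mul, mul_comm]
  have hB : 1 ≤ K * S ^ 2 := one_le_mul_of_one_le_of_one_le hK (one_le_pow₀ hS1)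
  have hD : 0 ≤ K / S ^ (4 * k + 1) := by positivity
  have hTS := TS_diff hχ k (2 ^ (2 * J)) h β β' hB hD (fun j m _ => (hb j m).1) (fun j m _ => (hb j m).2.1)
    (fun j m _ => (hb j m).2.2)
  have hDB := DB_diff k (2 ^ (2 * J)) β β' hB hD (fun j m _ => (hb j m).1) (fun j m _ => (hb j m).2.1)
    (fun j m _ => (hb j m).2.2)
  rw [hX, netnum k K S hS0] at hTS hDB
  obtain ⟨E, hE⟩ : ∃ E : ℝ, E = 2 ^ k * k * K ^ (k + 1) * (1 / S) := ⟨_, rfl⟩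
  have hE0 : 0 ≤ E := by
    rw [hE]
    positivity
  rw [← hE] at hTS hDB ⊢
  have hQ' := hQ β' hβ' h hh
  by_cases h0 : h = 0
  · rw [if_pos h0] at hQ' ⊢
    have e1 : TS χ k (2 ^ (2 * J)) h β - DB k (2 ^ (2 * J)) β = (TS χ k (2 ^ (2 * J)) h β - TS χ k (2 ^ (2 * J)) h β') +
        ((TS χ k (2 ^ (2 * J)) h β' - DB k (2 ^ (2 * J)) β') - (DB k (2 ^ (2 * J)) β - DB k (2 ^ (2 * J)) β')) := by ring
    rw [e1]
    refine (norm_add_le _ _).trans ?_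
    have e2 := norm_sub_le (TS χ k (2 ^ (2 * J)) h β' - DB k (2 ^ (2 * J)) β')
      (DB k (2 ^ (2 * J)) β - DB k (2 ^ (2 * J)) β')
    linarith
  · rw [if_neg h0, sub_zero] at hQ' ⊢
    have e1 : TS χ k (2 ^ (2 * J)) h β = (TS χ k (2 ^ (2 * J)) h β - TS χ k (2 ^ (2 * J)) h β') +
      TS χ k (2 ^ (2 * J)) h β' := by ring
    rw [e1]
    refine (norm_add_le _ _).trans ?_
    linarith

/-- **Job YC.** -/
theorem yc (h1 : S_GMAQ) (h2 : Pool.Agent.Q255.L2Y.S_YB) (h3 : S_FOU) (h4 : Pool.Agent.Q255.L2Y.S_YS) :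
    Pool.Agent.Q255.L2Y.S_YC := by
  classical
  intro ι _ a V V' hCoef hAdm h₀ h₁ k hh₀ hh₁ hk
  obtain ⟨C₀, c₀, hC₀, hc₀, hV⟩ := adm_unif V V' hAdm
  obtain ⟨A, hA, haA⟩ := Pool.Agent.Q68.L2.coef_pt (T := fun _ : ι => (1 : ℝ)) (fun _ => le_rfl) hCoef
  have ha : ∀ i, ∀ n : ℕ, 1 ≤ n → |a i n| ≤ A * n := fun i n hn => by
    have := haA i n hn
    rwa [mul_one] at this
  obtain ⟨η, c, C₁, hη, hη1, hc, hC₁, hcnt⟩ := cntY h2 a V V' hCoef (h₁ := h₁) hc₀ hC₀ hh₀ hV ha k hk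
  obtain ⟨Z, hZ⟩ : ∃ Z : ℕ, Z = ⌈h₁⌉₊ := ⟨_, rfl⟩
  have hZ1 : h₁ ≤ Z := by
    rw [hZ]
    exact Nat.le_ceil _
  obtain ⟨K, hK1, hapx⟩ := apxY a V V' hc₀ hC₀ hA hh₀ hη hV ha k Z hZ1
  obtain ⟨A', hA'0, hA'⟩ := card_YF a V h₀ h₁ η Z (4 * k + 5)
  obtain ⟨𝓑, h𝓑⟩ : ∃ 𝓑 : ℕ → Finset (ℤ → ℂ), 𝓑 = fun J => if Even J then YF a V h₀ h₁ η Z (4 * k + 5) (J / 2) else ∅ :=
    ⟨_, rfl⟩
  have hmem : ∀ {J : ℕ} {β : ℤ → ℂ}, β ∈ 𝓑 J → ∃ I, J = 2 * I ∧ β ∈ YF a V h₀ h₁ η Z (4 * k + 5) I := by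
    intro J β hβ
    rw [h𝓑] at hβ
    simp only at hβ
    split_ifs at hβ with hJ
    · refine ⟨J / 2, ?_, hβ⟩
      obtain ⟨r, hr⟩ := hJ
      omega
    · simp at hβ
  have h𝓑2 : ∀ J, 𝓑 (2 * J) = YF a V h₀ h₁ η Z (4 * k + 5) J := by
    intro J
    rw [h𝓑]
    simp only
    rw [if_pos (even_two_mul J)]
    congr 1
    omega
  have h4J : ∀ J : ℕ, (4 : ℝ) ^ J = ((2 ^ (2 * J) : ℕ) : ℝ) := by
    intro J
    push_cast
    rw [show (4 : ℝ) = 2 ^ 2 by norm_num, ← pow_mul]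
  have hsupp : ∀ J, ∀ β ∈ 𝓑 J, ∀ m : ℤ, m ∉ Bx (2 ^ J) → β m = 0 := by
    intro J β hβ m hm
    obtain ⟨I, rfl, hI⟩ := hmem hβ
    obtain ⟨i, b, y, u, -, -, rfl⟩ := mem_YF hI
    unfold uc us
    split_ifs
    · rw [ut_eq, if_neg, zero_mul]
      rintro ⟨g1, g2⟩
      apply hm
      rw [mem_Bx]
      refine ⟨g1, ?_⟩
      rw [h4J] at g2
      exact_mod_cast g2
    · rfl
  have hcard : ∀ J, ((𝓑 J).card : ℝ) ≤ Real.exp (A' * ((J : ℝ) + 1)) := by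
    intro J
    rw [h𝓑]
    simp only
    split_ifs with hJ
    · refine (hA' (J / 2)).trans (Real.exp_le_exp.2 ?_)
      refine mul_le_mul_of_nonneg_left ?_ hA'0
      have : ((J / 2 : ℕ) : ℝ) ≤ J := by exact_mod_cast Nat.div_le_self J 2
      linarith
    · rw [card_empty, Nat.cast_zero]
      exact (Real.exp_pos _).le
  have hUU : ∀ J, ∀ β : Fin k → ℤ → ℂ, (∀ j, β j ∈ 𝓑 J) → ∀ h : ℤ,
      U1 k (2 ^ J) h β ≤ C₁ * (2 : ℝ) ^ (-(c / 2 * J)) ∧ U2 k (2 ^ J) h β ≤ C₁ * (2 : ℝ) ^ (-(c / 2 * J)) := by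
    intro J β hβ h
    obtain ⟨I, rfl, -⟩ := hmem (hβ ⟨0, by omega⟩)
    rw [h𝓑2] at hβ
    have g1 := hcnt Z (4 * k + 5) I β h hβ
    have g2 : c / 2 * ((2 * I : ℕ) : ℝ) = c * I := by
      push_cast
      ring
    rw [g2]
    exact g1
  obtain ⟨CQ, hQ⟩ := h1 k hk 𝓑 A' (c / 2) C₁ (by positivity) hsupp hcard hUU
  obtain ⟨CF, hCF0, hF⟩ := h3
  have hk0 : (0 : ℝ) < k := by exact_mod_cast hk
  obtain ⟨CS, hS⟩ := h4 ι a V V' hCoef hAdm h₀ h₁ (1 / (4 * k)) hh₀ hh₁ (by positivity)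
  obtain ⟨Ct, hCt⟩ : ∃ Ct : ℝ, Ct = √h₁ * A * C₀ * ((8).factorial / (c₀ * h₀) ^ 8) * (∑' n : ℕ, 1 / (n : ℝ) ^ 2) :=
    ⟨_, rfl⟩
  have hCt0 : 0 ≤ Ct := by
    rw [hCt]
    have : 0 ≤ ∑' n : ℕ, 1 / (n : ℝ) ^ 2 := tsum_nonneg fun n => by positivity
    positivity
  obtain ⟨d, hd⟩ : ∃ d : ℝ, d = min (c / 4) (1 / 4) := ⟨_, rfl⟩
  have hd0 : 0 < d := by
    rw [hd]
    exact lt_min (by positivity) (by norm_num)
  have hd4 : d ≤ 1 / 4 := by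
    rw [hd]
    exact min_le_right _ _
  have hdc : d ≤ c / 4 := by
    rw [hd]
    exact min_le_left _ _
  obtain ⟨D, hD⟩ : ∃ D : ℝ, D = |CS| + Ct + 1 := ⟨_, rfl⟩
  have hD1 : 1 ≤ D := by
    rw [hD]
    have := abs_nonneg CS
    linarith
  obtain ⟨E, hE⟩ : ∃ E : ℝ, E = 2 ^ k * k * K ^ (k + 1) := ⟨_, rfl⟩
  have hE0 : 0 ≤ E := by
    rw [hE]
    positivity
  refine ⟨d / 2, k * D ^ k * Ct * 2 ^ 0 + CF * (D ^ k + (|CQ| + 2 * E) * (1 + 2 / d)) + (|CQ| + 2 * E),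
    by positivity, by positivity, ?_⟩
  refine ((hQ.scale (k := 2) (by norm_num) 0).and hS).mono fun J md hQS hR i b u y α β hy hα hαβ hβ => ?_
  obtain ⟨hQ1, hS1⟩ := hQS
  rw [add_zero] at hQ1
  have hQ2 := hQ1 hR
  rw [h𝓑2] at hQ2
  have hχ := Pool.Agent.Q150.L2.GQ.jc_le md
  obtain ⟨S, hSd⟩ : ∃ S : ℝ, S = (2 : ℝ) ^ J := ⟨_, rfl⟩
  have hS1' : 1 ≤ S := by
    rw [hSd]
    exact one_le_pow₀ (by norm_num)
  have hS0 : 0 < S := by linarith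
  have hinv : (2 : ℝ) ^ (-(J : ℝ)) = 1 / S := by
    rw [Real.rpow_neg (by norm_num), Real.rpow_natCast, hSd, one_div]
  have hy' : ∀ j, h₀ / 2 ^ J ≤ y j ∧ y j ≤ h₁ / 2 ^ J := by
    intro j
    have g1 := hy j
    rw [hinv, mul_one_div, mul_one_div, hSd] at g1
    exact g1
  have hεS : (2 : ℝ) ^ (1 / (4 * (k : ℝ)) * J) = S ^ (1 / (4 * k) : ℝ) := by
    rw [hSd, ← Real.rpow_natCast, ← Real.rpow_mul (by norm_num), mul_comm]
  have hPε : 1 ≤ S ^ (1 / (4 * k) : ℝ) := Real.one_le_rpow hS1' (by positivity)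
  have hφB' : ∀ j x, |uf (b j) (jc md) (a (i j)) (V (i j)) (x + u j) (y j)| ≤ |CS| * S ^ (1 / (4 * k) : ℝ) := by
    intro j x
    have g1 := hS1 (i j) (b j) (x + u j) (y j) (hy j).1 (hy j).2
    rw [hεS] at g1
    exact g1.trans (mul_le_mul_of_nonneg_right (le_abs_self _) (by positivity))
  have hρφ : ∀ j x, |uf (b j) (jc md) (a (i j)) (V (i j)) (x + u j) (y j) -
      pv (b j) (jc md) (a (i j)) (V (i j)) (4 ^ J) (x + u j) (y j)| ≤ Ct * (2 ^ 0 / S) := by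
    intro j x
    have g1 := uf_tail hc₀ hC₀ hA hh₀ (fun u hu => (hV (i j) u hu).2.1) (ha (i j)) (b j) hχ J (x + u j) (hy' j).1
      (hy' j).2
    rw [← hCt, ← hSd] at g1
    rw [pow_zero, mul_one_div]
    exact g1
  have hN : (4 : ℕ) ^ J = 2 ^ (2 * J) := by
    rw [show (4 : ℕ) = 2 ^ 2 by norm_num, ← pow_mul]
  have hφB : ∀ j x, |uf (b j) (jc md) (a (i j)) (V (i j)) (x + u j) (y j)| ≤ D * S ^ (1 / (4 * k) : ℝ) := by
    intro j x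
    refine (hφB' j x).trans (mul_le_mul_of_nonneg_right ?_ (by positivity))
    rw [hD]
    linarith
  have hρB : ∀ j x, |pv (b j) (jc md) (a (i j)) (V (i j)) (4 ^ J) (x + u j) (y j)| ≤ D * S ^ (1 / (4 * k) : ℝ) := by
    intro j x
    have g1 := abs_sub_abs_le_abs_sub (pv (b j) (jc md) (a (i j)) (V (i j)) (4 ^ J) (x + u j) (y j))
      (uf (b j) (jc md) (a (i j)) (V (i j)) (x + u j) (y j))
    rw [abs_sub_comm] at g1
    have g2 := hρφ j x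
    have g3 := hφB' j x
    have g4 : Ct * (2 ^ 0 / S) ≤ Ct := by
      rw [pow_zero]
      have : 1 / S ≤ 1 := by
        rw [div_le_one hS0]
        exact hS1'
      have := mul_le_mul_of_nonneg_left this hCt0
      linarith
    have g5 : |pv (b j) (jc md) (a (i j)) (V (i j)) (4 ^ J) (x + u j) (y j)| ≤ |CS| * S ^ (1 / (4 * k) : ℝ) + Ct := by
      linarith
    refine g5.trans ?_
    rw [hD]
    nlinarith
  have hTS := fun h hh => coefY a V k Z hK1 J (fun i b u y => hapx J i b u y) hχ hQ2 i b u y hy' h hh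
  have hfin := Pool.Agent.Q150.L2.GQ.assemble CF hF k J (2 * J) (by omega) (jc md)
    (fun j => us (b j) (a (i j)) (V (i j)) (4 ^ J) (y j) (u j))
    (fun j x => pv (b j) (jc md) (a (i j)) (V (i j)) (4 ^ J) (x + u j) (y j))
    (fun j x => uf (b j) (jc md) (a (i j)) (V (i j)) (x + u j) (y j)) (D * S ^ (1 / (4 * k) : ℝ)) (Ct * (2 ^ 0 / S))
    (|CQ| * S ^ (-d) + 2 * (E * (1 / S))) (one_le_mul_of_one_le_of_one_le hD1 hPε) (by positivity)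
    (fun j x => by
      have g1 := tp_us (jc md) (b j) (a (i j)) (V (i j)) (2 ^ (2 * J)) (4 ^ J) (h4J J) x (y j) (u j)
      rw [hN]
      exact g1)
    (fun j => by
      have g1 := pv_cont (b j) (jc md) (a (i j)) (V (i j)) (4 ^ J) (y j)
      exact g1.comp (continuous_id.add continuous_const))
    (fun j => by
      have hyp : 0 < y j := lt_of_lt_of_le (by positivity) (hy' j).1
      have g1 := uf_cont hc₀ (fun u hu => (hV (i j) u hu).2.1) (ha (i j)) (b j) hχ hyp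
      exact g1.comp (continuous_id.add continuous_const))
    hρB hφB hρφ (by
      intro h hh
      refine (hTS h hh).trans ?_
      rw [← hE, ← hSd]
      have g1 : CQ * (2 : ℝ) ^ (-(c / 2 / 4 * ((2 * J : ℕ) : ℝ))) ≤ |CQ| * S ^ (-d) := by
        have g2 : (2 : ℝ) ^ (-(c / 2 / 4 * ((2 * J : ℕ) : ℝ))) = S ^ (-(c / 4)) := by
          rw [hSd, ← Real.rpow_natCast 2 J, ← Real.rpow_mul (by norm_num)]
          congr 1
          push_cast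
          ring
        rw [g2]
        have g3 : S ^ (-(c / 4)) ≤ S ^ (-d) := Real.rpow_le_rpow_of_exponent_le hS1' (by linarith)
        calc CQ * S ^ (-(c / 4)) ≤ |CQ| * S ^ (-(c / 4)) := mul_le_mul_of_nonneg_right (le_abs_self _) (by positivity)
          _ ≤ |CQ| * S ^ (-d) := mul_le_mul_of_nonneg_left g3 (abs_nonneg _)
      linarith)
    α β hα hαβ hβ
  rw [← hSd] at hfin
  have hpow := Pool.Agent.Q150.L2.GQ.powers S d D E CF |CQ| Ct k 0 hk hS1' hd0 hd4 hD1 hE0 hCF0 (abs_nonneg _) hCt0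
  have hend := hfin.trans hpow
  have g5 : S ^ (-(d / 2)) = (2 : ℝ) ^ (-(d / 2 * J)) := by
    rw [hSd, ← Real.rpow_natCast 2 J, ← Real.rpow_mul (by norm_num)]
    congr 1
    ring
  rw [g5] at hend
  rw [hN]
  exact hend

end Pool.Agent.Q176.L2Y.YC
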