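import Pool.Agent.Q176.L2.GMCb
import Pool.Agent.Q255.L2.StmY

/-!
# Project L2Y (helper255), job YC, part 1: the series and its coefficients
-/

set_option autoImplicit false

namespace Pool.Agent.Q176.L2Y.YC

open Filter Topology MeasureTheory Finset
open Pool.Agent.Q255.IC Pool.Agent.Q255.IR Pool.Agent.Q255.EP Pool.Agent.Q255.L2 Pool.Agent.Q255.L2Y
open Pool.Agent.Q65.L2 (sh sqrt_lip sum_range_Icc)
open Pool.Agent.Q65.L2.Fou (ee_norm ee_add ee_int ee_cont)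
open Pool.Agent.Q176.L2.GMC

/-- one term of the series -/
noncomputable def vt (b : Bool) (a : ℕ → ℝ) (V : ℝ → ℝ) (x y : ℝ) (n : ℕ) : ℝ :=
  √y * (a n * V (n * y)) * Real.cos (2 * Real.pi * n * x - sh b)

theorem uf_eq (b : Bool) (f a : ℕ → ℝ) (V : ℝ → ℝ) (x y : ℝ) :
    uf b f a V x y = ∑' n : ℕ, vt b a V x y (n + 1) * f (n + 1) := by
  unfold uf
  rw [← tsum_mul_left]
  congr 1
  funext n
  unfold vt sh
  cases b
  · rw [if_neg (by simp), if_neg (by simp), Real.cos_sub_pi_div_two]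
    push_cast
    ring
  · rw [if_pos rfl, if_pos rfl, sub_zero]
    push_cast
    ring

/-- the truncated series -/
noncomputable def pv (b : Bool) (f a : ℕ → ℝ) (V : ℝ → ℝ) (N : ℕ) (x y : ℝ) : ℝ :=
  ∑ n ∈ Icc 1 N, vt b a V x y n * f n

theorem vt_true (a : ℕ → ℝ) (V : ℝ → ℝ) (y : ℝ) (n : ℕ) : vt true a V 0 y n = √y * (a n * V (n * y)) := by
  unfold vt sh
  rw [if_pos rfl, mul_zero, sub_zero, Real.cos_zero, mul_one]

theorem ut_eq (b : Bool) (a : ℕ → ℝ) (V : ℝ → ℝ) (M y : ℝ) (m : ℤ) :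
    ut b a V M y m = if m ≠ 0 ∧ (m.natAbs : ℝ) ≤ M then ((vt true a V 0 y m.natAbs / 2 : ℝ) : ℂ) * un b m else 0 := by
  unfold ut un
  by_cases h : m ≠ 0 ∧ (m.natAbs : ℝ) ≤ M
  · rw [if_pos h, if_pos h, vt_true]
    congr 2
    ring
  · rw [if_neg h, if_neg h]

/-- the pair `n`, `-n` -/
theorem pair (c : ℝ) (b : Bool) (x : ℝ) (n : ℕ) (hn : 1 ≤ n) :
    ((c / 2 : ℝ) : ℂ) * un b n * ee (n * x) + ((c / 2 : ℝ) : ℂ) * un b (-n) * ee (-(n * x)) =
      ((c * Real.cos (2 * Real.pi * n * x - sh b) : ℝ) : ℂ) := by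
  have hs : ((n : ℤ).sign) = 1 := Int.sign_eq_one_of_pos (by omega)
  cases b
  · unfold un
    rw [if_neg (by simp), if_neg (by simp), Int.sign_neg, hs]
    have h2 := ee_sin ((n : ℝ) * x)
    have h3 : Real.cos (2 * Real.pi * n * x - sh false) = Real.sin (2 * Real.pi * (n * x)) := by
      unfold sh
      rw [if_neg (by simp), Real.cos_sub_pi_div_two]
      congr 1
      ring
    rw [h3]
    have h4 : ((c * Real.sin (2 * Real.pi * (n * x)) : ℝ) : ℂ) =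
        ((c / 2 : ℝ) : ℂ) * ((2 * Real.sin (2 * Real.pi * (n * x)) : ℝ) : ℂ) := by
      push_cast
      ring
    rw [h4, ← h2]
    push_cast
    ring
  · unfold un
    rw [if_pos rfl, if_pos rfl]
    have h2 := ee_cos ((n : ℝ) * x)
    have h3 : Real.cos (2 * Real.pi * n * x - sh true) = Real.cos (2 * Real.pi * (n * x)) := by
      unfold sh
      rw [if_pos rfl, sub_zero]
      congr 1
      ring
    rw [h3]
    have h4 : ((c * Real.cos (2 * Real.pi * (n * x)) : ℝ) : ℂ) =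
        ((c / 2 : ℝ) : ℂ) * ((2 * Real.cos (2 * Real.pi * (n * x)) : ℝ) : ℂ) := by
      push_cast
      ring
    rw [h4, ← h2]
    ring

/-- the shifted coefficients -/
noncomputable def us (b : Bool) (a : ℕ → ℝ) (V : ℝ → ℝ) (M y u : ℝ) (m : ℤ) : ℂ :=
  ut b a V M y m * ee (m * u)

/-- the truncated series as a trigonometric polynomial -/
theorem tp_us (f : ℕ → ℝ) (b : Bool) (a : ℕ → ℝ) (V : ℝ → ℝ) (N : ℕ) (M : ℝ) (hM : M = (N : ℝ)) (x y u : ℝ) :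
    tp f N (us b a V M y u) x = ((pv b f a V N (x + u) y : ℝ) : ℂ) := by
  unfold tp pv us
  rw [sum_Bx]
  push_cast
  refine sum_congr rfl fun n hn => ?_
  rw [mem_Icc] at hn
  have hnM : (n : ℝ) ≤ M := by
    rw [hM]
    exact_mod_cast hn.2
  have hn0 : (n : ℤ) ≠ 0 := by omega
  rw [ut_eq, ut_eq, if_pos ⟨hn0, by rw [Int.natAbs_natCast]; exact hnM⟩,
    if_pos ⟨neg_ne_zero.2 hn0, by rw [Int.natAbs_neg, Int.natAbs_natCast]; exact hnM⟩,
    Int.natAbs_neg, Int.natAbs_natCast]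
  have h1 := pair (vt true a V 0 y n) b (x + u) n hn.1
  have h2 : vt true a V 0 y n * Real.cos (2 * Real.pi * n * (x + u) - sh b) = vt b a V (x + u) y n := by
    rw [vt_true]
    rfl
  rw [h2] at h1
  rw [← h1]
  have h3 : (n : ℝ) * (x + u) = n * u + n * x := by ring
  have h4 : -((n : ℝ) * u + n * x) = -(n * u) + -(n * x) := by ring
  rw [h3, h4, ee_add, ee_add]
  push_cast
  rw [neg_mul, neg_mul]
  ring

theorem pv_cont (b : Bool) (f a : ℕ → ℝ) (V : ℝ → ℝ) (N : ℕ) (y : ℝ) : Continuous fun x => pv b f a V N x y := by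
  unfold pv vt
  fun_prop

theorem exp_pow (r : ℕ) {x : ℝ} (hx : 0 < x) : Real.exp (-x) ≤ r.factorial / x ^ r := by
  have h1 := Real.pow_div_factorial_le_exp x hx.le r
  have h2 : (0 : ℝ) < r.factorial := by exact_mod_cast r.factorial_pos
  have h3 : 0 < x ^ r := by positivity
  rw [Real.exp_neg, inv_eq_one_div, div_le_div_iff₀ (Real.exp_pos x) h3]
  rw [div_le_iff₀ h2] at h1
  linarith

/-- the size of the terms -/
theorem vt_bd {C₀ c₀ A : ℝ} {a : ℕ → ℝ} {V : ℝ → ℝ}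
    (hV : ∀ u : ℝ, 0 < u → |V u| ≤ C₀ * Real.exp (-(c₀ * u))) (ha : ∀ n : ℕ, 1 ≤ n → |a n| ≤ A * n)
    (b : Bool) (x : ℝ) {y : ℝ} (hy : 0 < y) (n : ℕ) (hn : 1 ≤ n) :
    |vt b a V x y n| ≤ √y * (|a n| * (C₀ * Real.exp (-(c₀ * (n * y))))) ∧
    |vt b a V x y n| ≤ √y * (A * n * (C₀ * Real.exp (-(c₀ * (n * y))))) := by
  have hn0 : (0 : ℝ) < n := by exact_mod_cast hn
  have h1 := hV (n * y) (by positivity)
  have h0 : 0 ≤ C₀ * Real.exp (-(c₀ * (n * y))) := (abs_nonneg _).trans h1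
  have h2 : |vt b a V x y n| ≤ √y * (|a n| * |V (n * y)|) := by
    unfold vt
    rw [abs_mul, abs_mul, abs_mul, abs_of_nonneg (Real.sqrt_nonneg y)]
    have := mul_le_mul_of_nonneg_left (Real.abs_cos_le_one (2 * Real.pi * n * x - sh b))
      (by positivity : 0 ≤ √y * (|a n| * |V (n * y)|))
    rwa [mul_one] at this
  have h3 : |vt b a V x y n| ≤ √y * (|a n| * (C₀ * Real.exp (-(c₀ * (n * y))))) := by
    refine h2.trans (mul_le_mul_of_nonneg_left ?_ (Real.sqrt_nonneg _))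
    exact mul_le_mul_of_nonneg_left h1 (abs_nonneg _)
  refine ⟨h3, h3.trans (mul_le_mul_of_nonneg_left ?_ (Real.sqrt_nonneg _))⟩
  exact mul_le_mul_of_nonneg_right (ha n hn) h0

/-- continuity of the series -/
theorem uf_cont {C₀ c₀ A : ℝ} {a : ℕ → ℝ} {V : ℝ → ℝ} (hc₀ : 0 < c₀)
    (hV : ∀ u : ℝ, 0 < u → |V u| ≤ C₀ * Real.exp (-(c₀ * u))) (ha : ∀ n : ℕ, 1 ≤ n → |a n| ≤ A * n)
    (b : Bool) {f : ℕ → ℝ} (hf : ∀ n, |f n| ≤ 1) {y : ℝ} (hy : 0 < y) : Continuous fun x => uf b f a V x y := by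
  have h0 : (fun x => uf b f a V x y) = fun x => ∑' n : ℕ, vt b a V x y (n + 1) * f (n + 1) := by
    funext x
    exact uf_eq b f a V x y
  rw [h0]
  have hs0 : Summable fun n : ℕ => (n : ℝ) ^ 1 * Real.exp (-(c₀ * y) * n) :=
    Real.summable_pow_mul_exp_neg_nat_mul 1 (by positivity : 0 < c₀ * y)
  have hs1 : Summable fun n : ℕ => √y * A * C₀ * (((n + 1 : ℕ) : ℝ) ^ 1 * Real.exp (-(c₀ * y) * ((n + 1 : ℕ) : ℝ))) :=
    ((summable_nat_add_iff 1).2 hs0).mul_left _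
  refine continuous_tsum (fun n => ?_) hs1 (fun n x => ?_)
  · unfold vt
    fun_prop
  · rw [Real.norm_eq_abs, abs_mul]
    have h1 := (vt_bd hV ha b x hy (n + 1) (by omega)).2
    have h2 := mul_le_mul_of_nonneg_left (hf (n + 1)) (abs_nonneg (vt b a V x y (n + 1)))
    rw [mul_one] at h2
    refine h2.trans (h1.trans (le_of_eq ?_))
    rw [pow_one]
    have h3 : -(c₀ * (((n + 1 : ℕ) : ℝ) * y)) = -(c₀ * y) * ((n + 1 : ℕ) : ℝ) := by ring
    rw [h3]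
    ring

/-- the tail of the series -/
theorem uf_tail {C₀ c₀ A h₀ h₁ : ℝ} {a : ℕ → ℝ} {V : ℝ → ℝ} (hc₀ : 0 < c₀) (hC₀ : 0 ≤ C₀) (hA : 0 ≤ A) (hh₀ : 0 < h₀)
    (hV : ∀ u : ℝ, 0 < u → |V u| ≤ C₀ * Real.exp (-(c₀ * u))) (ha : ∀ n : ℕ, 1 ≤ n → |a n| ≤ A * n)
    (b : Bool) {f : ℕ → ℝ} (hf : ∀ n, |f n| ≤ 1) (J : ℕ) (x : ℝ) {y : ℝ} (hy0 : h₀ / 2 ^ J ≤ y)
    (hy1 : y ≤ h₁ / 2 ^ J) :
    |uf b f a V x y - pv b f a V (4 ^ J) x y| ≤
      √h₁ * A * C₀ * ((8).factorial / (c₀ * h₀) ^ 8) * (∑' n : ℕ, 1 / (n : ℝ) ^ 2) / 2 ^ J := by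
  obtain ⟨N, hN⟩ : ∃ N : ℕ, N = 4 ^ J := ⟨_, rfl⟩
  obtain ⟨P, hP⟩ : ∃ P : ℝ, P = 2 ^ J := ⟨_, rfl⟩
  have hP1 : 1 ≤ P := by
    rw [hP]
    exact one_le_pow₀ (by norm_num)
  have hP0 : 0 < P := by linarith
  have hNP : (N : ℝ) = P ^ 2 := by
    rw [hN, hP]
    push_cast
    rw [show (4 : ℝ) = 2 ^ 2 by norm_num, ← pow_mul, ← pow_mul, mul_comm]
  rw [← hP] at hy0 hy1 ⊢
  rw [← hN]
  have hy : 0 < y := lt_of_lt_of_le (by positivity) hy0
  have hh₁ : 0 ≤ h₁ := by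
    have h1 : 0 ≤ h₁ / P := hy.le.trans hy1
    by_contra hcon
    push Not at hcon
    have : h₁ / P < 0 := div_neg_of_neg_of_pos hcon hP0
    linarith
  obtain ⟨K, hK⟩ : ∃ K : ℝ, K = √h₁ * A * C₀ * ((8).factorial / (c₀ * h₀) ^ 8) := ⟨_, rfl⟩
  have hK0 : 0 ≤ K := by
    rw [hK]
    positivity
  rw [← hK]
  set F : ℕ → ℝ := fun n => vt b a V x y n * f n with hF
  set g : ℕ → ℝ := fun n => 1 / (n : ℝ) ^ 2 with hg
  have hgs : Summable g := by
    rw [hg]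
    exact Real.summable_one_div_nat_pow.2 (by norm_num)
  have hg0 : ∀ n, 0 ≤ g n := fun n => by
    rw [hg]
    positivity
  have htail : ∀ n : ℕ, |F (n + N + 1)| ≤ K / P * g (n + (N + 1)) := by
    intro n
    obtain ⟨m, hm⟩ : ∃ m : ℕ, m = n + N + 1 := ⟨_, rfl⟩
    have hm' : n + (N + 1) = m := by omega
    rw [hm', ← hm]
    have hm1 : 1 ≤ m := by omega
    have hm0 : (0 : ℝ) < m := by exact_mod_cast hm1
    have hmN : P ^ 2 ≤ (m : ℝ) := by
      rw [← hNP]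
      exact_mod_cast (by omega : N ≤ m)
    have h1 := (vt_bd hV ha b x hy m hm1).2
    have h2 := mul_le_mul_of_nonneg_left (hf m) (abs_nonneg (vt b a V x y m))
    rw [mul_one] at h2
    have hsm : 0 < √(m : ℝ) := Real.sqrt_pos.2 hm0
    have hsP : P ≤ √(m : ℝ) := Real.le_sqrt_of_sq_le hmN
    have hss : √(m : ℝ) * √(m : ℝ) = m := Real.mul_self_sqrt hm0.le
    have h3 : c₀ * h₀ * √(m : ℝ) ≤ c₀ * (m * y) := by
      rw [mul_assoc]
      refine mul_le_mul_of_nonneg_left ?_ hc₀.le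
      have h4 : (m : ℝ) * (h₀ / P) ≤ m * y := mul_le_mul_of_nonneg_left hy0 hm0.le
      refine le_trans ?_ h4
      rw [mul_div_assoc', le_div_iff₀ hP0]
      calc h₀ * √(m : ℝ) * P ≤ h₀ * √(m : ℝ) * √(m : ℝ) := mul_le_mul_of_nonneg_left hsP (by positivity)
        _ = m * h₀ := by rw [mul_assoc, hss]; ring
    have h4 : Real.exp (-(c₀ * (m * y))) ≤ (8).factorial / (c₀ * h₀) ^ 8 / (m : ℝ) ^ 4 := by
      refine (Real.exp_le_exp.2 (neg_le_neg h3)).trans ((exp_pow 8 (by positivity)).trans (le_of_eq ?_))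
      have h5 : (c₀ * h₀ * √(m : ℝ)) ^ 8 = (c₀ * h₀) ^ 8 * (m : ℝ) ^ 4 := by
        rw [mul_pow, show (√(m : ℝ)) ^ 8 = (√(m : ℝ) * √(m : ℝ)) ^ 4 by ring, hss]
      rw [h5, div_div]
    have hsy : √y ≤ √h₁ := by
      apply Real.sqrt_le_sqrt
      refine hy1.trans (div_le_self hh₁ hP1)
    have h5 : |vt b a V x y m| ≤ √h₁ * (A * m * (C₀ * ((8).factorial / (c₀ * h₀) ^ 8 / (m : ℝ) ^ 4))) := by
      refine h1.trans ?_
      refine mul_le_mul hsy ?_ (by positivity) (Real.sqrt_nonneg _)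
      refine mul_le_mul_of_nonneg_left (mul_le_mul_of_nonneg_left h4 hC₀) (by positivity)
    have h6 : √h₁ * (A * m * (C₀ * ((8).factorial / (c₀ * h₀) ^ 8 / (m : ℝ) ^ 4))) = K * (1 / (m : ℝ) ^ 3) := by
      rw [hK]
      field_simp
    rw [h6] at h5
    have h7 : 1 / (m : ℝ) ^ 3 ≤ 1 / P * (1 / (m : ℝ) ^ 2) := by
      rw [div_mul_div_comm, one_mul]
      refine div_le_div_of_nonneg_left (by norm_num) (by positivity) ?_
      have h8 : P ≤ m := by nlinarith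
      calc P * (m : ℝ) ^ 2 ≤ m * (m : ℝ) ^ 2 := mul_le_mul_of_nonneg_right h8 (by positivity)
        _ = (m : ℝ) ^ 3 := by ring
    have h8 := mul_le_mul_of_nonneg_left h7 hK0
    calc |F m| ≤ |vt b a V x y m| := by
          rw [hF]
          show |vt b a V x y m * f m| ≤ _
          rw [abs_mul]
          exact h2
      _ ≤ K * (1 / (m : ℝ) ^ 3) := h5
      _ ≤ K * (1 / P * (1 / (m : ℝ) ^ 2)) := h8
      _ = K / P * g m := by
          rw [hg]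
          ring
  have hs1 : Summable fun n : ℕ => K / P * g (n + (N + 1)) := ((summable_nat_add_iff (N + 1)).2 hgs).mul_left _
  have hs2 : Summable fun n : ℕ => |F (n + N + 1)| := Summable.of_nonneg_of_le (fun _ => abs_nonneg _) htail hs1
  have hs3 : Summable fun n : ℕ => F (n + 1) := by
    rw [← summable_nat_add_iff N]
    exact hs2.of_abs
  have hsplit := hs3.sum_add_tsum_nat_add N
  rw [sum_range_Icc F] at hsplit
  have h7 : uf b f a V x y = ∑' n : ℕ, F (n + 1) := uf_eq b f a V x y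
  have h8 : pv b f a V N x y = ∑ n ∈ Icc 1 N, F n := rfl
  rw [h7, h8, ← hsplit, add_sub_cancel_left]
  have h9 : |∑' n : ℕ, F (n + N + 1)| ≤ ∑' n : ℕ, |F (n + N + 1)| := by
    have := norm_tsum_le_tsum_norm (f := fun n : ℕ => F (n + N + 1)) hs2
    exact this
  refine h9.trans ((hs2.tsum_le_tsum htail hs1).trans ?_)
  rw [tsum_mul_left]
  have h10 := hgs.sum_add_tsum_nat_add (N + 1)
  have h11 : 0 ≤ ∑ n ∈ range (N + 1), g n := sum_nonneg fun n _ => hg0 n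
  have h12 : ∑' n, g (n + (N + 1)) ≤ ∑' n : ℕ, g n := by linarith
  calc K / P * ∑' n, g (n + (N + 1)) ≤ K / P * ∑' n : ℕ, g n := mul_le_mul_of_nonneg_left h12 (by positivity)
    _ = K * (∑' n : ℕ, g n) / P := by ring

end Pool.Agent.Q176.L2Y.YC
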