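import Pool.Agent.Q176.L2Y.YCa
import Pool.Agent.Q176.L2.GMCc

/-!
# Project L2Y (helper255), job YC, part 2: sizes, Lipschitz bounds and the net
-/

set_option autoImplicit false

namespace Pool.Agent.Q176.L2Y.YC

open Filter Topology MeasureTheory Finset
open Pool.Agent.Q255.IC Pool.Agent.Q255.IR Pool.Agent.Q255.EP Pool.Agent.Q255.L2 Pool.Agent.Q255.L2Y
open Pool.Agent.Q65.L2 (sh sqrt_lip sum_range_Icc)
open Pool.Agent.Q65.L2.Fou (ee_norm ee_add ee_int ee_cont)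
open Pool.Agent.Q176.L2.GMC

/-- admissible weight functions with given constants -/
def Ad (C₀ c₀ : ℝ) (V V' : ℝ → ℝ) : Prop :=
  ∀ u : ℝ, 0 < u → HasDerivAt V (V' u) u ∧ |V u| ≤ C₀ * Real.exp (-(c₀ * u)) ∧
    |V' u| ≤ C₀ * Real.exp (-(c₀ * u)) / u

theorem V_lip {C₀ c₀ : ℝ} {V V' : ℝ → ℝ} (hc₀ : 0 < c₀) (hC₀ : 0 ≤ C₀) (hV : Ad C₀ c₀ V V') {s : ℝ} (hs : 0 < s)
    {u v : ℝ} (hu : s ≤ u) (hv : s ≤ v) : |V u - V v| ≤ C₀ / s * |u - v| := by
  have h1 := Convex.norm_image_sub_le_of_norm_hasDerivWithin_le (f := V) (f' := V') (s := Set.Ici s) (x := v) (y := u)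
    (C := C₀ / s) (fun x hx => (hV x (hs.trans_le hx)).1.hasDerivWithinAt) (fun x hx => ?_) (convex_Ici s) hv hu
  · exact h1
  · have hx0 : 0 < x := hs.trans_le hx
    refine (hV x hx0).2.2.trans ?_
    have h2 : Real.exp (-(c₀ * x)) ≤ 1 := by
      rw [Real.exp_le_one_iff]
      have : 0 ≤ c₀ * x := by positivity
      linarith
    calc C₀ * Real.exp (-(c₀ * x)) / x ≤ C₀ * 1 / x :=
          div_le_div_of_nonneg_right (mul_le_mul_of_nonneg_left h2 hC₀) hx0.le
      _ ≤ C₀ / s := by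
          rw [mul_one]
          exact div_le_div_of_nonneg_left hC₀ hs hx

/-- the sizes of the coefficients -/
theorem us_bd {C₀ c₀ A h₀ h₁ P : ℝ} {a : ℕ → ℝ} {V V' : ℝ → ℝ} (hc₀ : 0 < c₀) (hC₀ : 0 ≤ C₀)
    (hh₀ : 0 < h₀) (hV : Ad C₀ c₀ V V') (ha : ∀ n : ℕ, 1 ≤ n → |a n| ≤ A * n)
    (hP : 1 ≤ P) (b : Bool) {M : ℝ} (hM : M ≤ P ^ 2) {y : ℝ} (hy0 : h₀ / P ≤ y) (hy1 : y ≤ h₁ / P) (u : ℝ) (m : ℤ) :
    ‖us b a V M y u m‖ ≤ √h₁ * C₀ / √P * |a m.natAbs| ∧ (0 ≤ A → ‖us b a V M y u m‖ ≤ √h₁ * A * C₀ * P ^ 2) ∧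
    ∀ R : ℝ, 0 ≤ A → P * R ≤ (m.natAbs : ℝ) → ‖us b a V M y u m‖ ≤ √h₁ * A * C₀ * P ^ 2 * Real.exp (-(c₀ * h₀ * R)) := by
  have hP0 : 0 < P := by linarith
  have hy : 0 < y := lt_of_lt_of_le (by positivity) hy0
  have hh₁ : 0 ≤ h₁ := by
    have h1 : 0 ≤ h₁ / P := hy.le.trans hy1
    by_contra hcon
    push Not at hcon
    have : h₁ / P < 0 := div_neg_of_neg_of_pos hcon hP0
    linarith
  have hsy : √y ≤ √h₁ / √P := by
    rw [← Real.sqrt_div hh₁]
    exact Real.sqrt_le_sqrt hy1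
  have hsP : 1 ≤ √P := Real.one_le_sqrt.2 hP
  have hsy1 : √h₁ / √P ≤ √h₁ := div_le_self (Real.sqrt_nonneg _) hsP
  unfold us
  rw [norm_mul, ee_norm, mul_one, ut_eq]
  split_ifs with h
  · obtain ⟨n, hn⟩ : ∃ n : ℕ, n = m.natAbs := ⟨_, rfl⟩
    rw [← hn]
    have hn1 : 1 ≤ n := by
      rw [hn]
      exact Int.natAbs_pos.2 h.1
    have hn0 : (0 : ℝ) < n := by exact_mod_cast hn1
    have hnM : (n : ℝ) ≤ P ^ 2 := by
      rw [hn]
      exact h.2.trans hM
    have h1 := (vt_bd (fun u hu => (hV u hu).2.1) ha true 0 hy n hn1).1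
    have h2 : Real.exp (-(c₀ * (n * y))) ≤ 1 := by
      rw [Real.exp_le_one_iff]
      have : 0 ≤ c₀ * (n * y) := by positivity
      linarith
    have h3 : ‖((vt true a V 0 y n / 2 : ℝ) : ℂ) * un b m‖ ≤ |vt true a V 0 y n| := by
      rw [norm_mul, Complex.norm_real, Real.norm_eq_abs, abs_div, abs_of_pos (two_pos : (0 : ℝ) < 2)]
      have h5 := mul_le_mul_of_nonneg_left (un_norm b m) (by positivity : 0 ≤ |vt true a V 0 y n| / 2)
      have h6 : 0 ≤ |vt true a V 0 y n| := abs_nonneg _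
      linarith
    have h4 : √y * (|a n| * (C₀ * Real.exp (-(c₀ * (n * y))))) ≤ √h₁ * C₀ / √P * |a n| := by
      calc √y * (|a n| * (C₀ * Real.exp (-(c₀ * (n * y))))) ≤ √h₁ / √P * (|a n| * (C₀ * 1)) := by
            refine mul_le_mul hsy ?_ (by positivity) (by positivity)
            exact mul_le_mul_of_nonneg_left (mul_le_mul_of_nonneg_left h2 hC₀) (abs_nonneg _)
        _ = √h₁ * C₀ / √P * |a n| := by ring
    have haP : |a n| ≤ |A| * P ^ 2 := by
      refine (ha n hn1).trans ?_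
      calc A * n ≤ |A| * n := mul_le_mul_of_nonneg_right (le_abs_self A) hn0.le
        _ ≤ |A| * P ^ 2 := mul_le_mul_of_nonneg_left hnM (abs_nonneg A)
    refine ⟨h3.trans (h1.trans h4), fun hA => ?_, fun R hA hR => ?_⟩
    · rw [abs_of_nonneg hA] at haP
      refine h3.trans (h1.trans (h4.trans ?_))
      calc √h₁ * C₀ / √P * |a n| ≤ √h₁ * C₀ * (A * P ^ 2) := by
            refine mul_le_mul ?_ haP (abs_nonneg _) (by positivity)
            exact div_le_self (by positivity) hsP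
        _ = √h₁ * A * C₀ * P ^ 2 := by ring
    · rw [abs_of_nonneg hA] at haP
      have h5 : Real.exp (-(c₀ * (n * y))) ≤ Real.exp (-(c₀ * h₀ * R)) := by
        apply Real.exp_le_exp.2
        have h6 : h₀ * R ≤ n * y := by
          have h7 : (n : ℝ) * (h₀ / P) ≤ n * y := mul_le_mul_of_nonneg_left hy0 hn0.le
          refine le_trans ?_ h7
          rw [mul_div_assoc', le_div_iff₀ hP0]
          calc h₀ * R * P = h₀ * (P * R) := by ring
            _ ≤ h₀ * n := mul_le_mul_of_nonneg_left hR hh₀.le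
            _ = n * h₀ := by ring
        have h8 := mul_le_mul_of_nonneg_left h6 hc₀.le
        linarith
      refine h3.trans (h1.trans ?_)
      calc √y * (|a n| * (C₀ * Real.exp (-(c₀ * (n * y))))) ≤ √h₁ * (A * P ^ 2 * (C₀ * Real.exp (-(c₀ * h₀ * R)))) := by
            refine mul_le_mul (hsy.trans hsy1) ?_ (by positivity) (by positivity)
            exact mul_le_mul haP (mul_le_mul_of_nonneg_left h5 hC₀) (by positivity) (by positivity)
        _ = √h₁ * A * C₀ * P ^ 2 * Real.exp (-(c₀ * h₀ * R)) := by ring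
  · rw [norm_zero]
    refine ⟨by positivity, fun hA => by positivity, fun R hA hR => by positivity⟩

theorem ee_lip (u v : ℝ) : ‖ee u - ee v‖ ≤ 2 * Real.pi * |u - v| := by
  have h1 : ee u - ee v = ee v * (ee (u - v) - 1) := by
    rw [mul_sub, ← ee_add, add_sub_cancel, mul_one]
  rw [h1, norm_mul, ee_norm, one_mul]
  unfold ee
  have h2 := Real.norm_exp_I_mul_ofReal_sub_one_le (x := 2 * Real.pi * (u - v))
  rw [mul_comm Complex.I] at h2
  refine h2.trans ?_
  rw [Real.norm_eq_abs, abs_mul, abs_of_pos (by positivity : 0 < 2 * Real.pi)]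

/-- the dependence on the height and on the shift -/
theorem us_lip {C₀ c₀ A h₀ h₁ P : ℝ} {a : ℕ → ℝ} {V V' : ℝ → ℝ} (hc₀ : 0 < c₀) (hC₀ : 0 ≤ C₀) (hA : 0 ≤ A)
    (hh₀ : 0 < h₀) (hV : Ad C₀ c₀ V V') (ha : ∀ n : ℕ, 1 ≤ n → |a n| ≤ A * n)
    (hP : 1 ≤ P) (b : Bool) {M : ℝ} (hM : M ≤ P ^ 2) {y y' u u' δ : ℝ} (hy0 : h₀ / P ≤ y) (hy1 : y ≤ h₁ / P)
    (hy0' : h₀ / P ≤ y') (hy1' : y' ≤ h₁ / P) (hyy : |y - y'| ≤ δ) (huu : |u - u'| ≤ δ) (m : ℤ) :
    ‖us b a V M y u m - us b a V M y' u' m‖ ≤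
      (A * C₀ / √h₀ + A * √h₁ * C₀ / h₀ + √h₁ * A * C₀ * (2 * Real.pi)) * P ^ 4 * δ := by
  have hP0 : 0 < P := by linarith
  have hpi := Real.pi_pos
  have hδ : 0 ≤ δ := (abs_nonneg _).trans hyy
  have hl0 : 0 < h₀ / P := by positivity
  have hy : 0 < y := hl0.trans_le hy0
  have hy' : 0 < y' := hl0.trans_le hy0'
  have hh₁ : 0 ≤ h₁ := by
    have h1 : 0 ≤ h₁ / P := hy.le.trans hy1
    by_contra hcon
    push Not at hcon
    have : h₁ / P < 0 := div_neg_of_neg_of_pos hcon hP0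
    linarith
  have hsh : 0 < √h₀ := Real.sqrt_pos.2 hh₀
  have hbd := (us_bd hc₀ hC₀ hh₀ hV ha hP b hM hy0 hy1 u m).2.1 hA
  -- change of the height
  have hb1 : ‖ut b a V M y m - ut b a V M y' m‖ ≤ (A * C₀ / √h₀ + A * √h₁ * C₀ / h₀) * P ^ 3 * δ := by
    rw [ut_eq, ut_eq]
    split_ifs with h
    · obtain ⟨n, hn⟩ : ∃ n : ℕ, n = m.natAbs := ⟨_, rfl⟩
      rw [← hn]
      have hn1 : 1 ≤ n := by
        rw [hn]
        exact Int.natAbs_pos.2 h.1
      have hn0 : (0 : ℝ) < n := by exact_mod_cast hn1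
      have hnM : (n : ℝ) ≤ P ^ 2 := by
        rw [hn]
        exact h.2.trans hM
      have haP : |a n| ≤ A * P ^ 2 := (ha n hn1).trans (mul_le_mul_of_nonneg_left hnM hA)
      rw [← sub_mul, norm_mul]
      have h4 : (((vt true a V 0 y n / 2 : ℝ) : ℂ) - ((vt true a V 0 y' n / 2 : ℝ) : ℂ)) =
          (((vt true a V 0 y n - vt true a V 0 y' n) / 2 : ℝ) : ℂ) := by
        push_cast
        ring
      rw [h4, Complex.norm_real, Real.norm_eq_abs, abs_div, abs_of_pos (two_pos : (0 : ℝ) < 2)]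
      have h5 := mul_le_mul_of_nonneg_left (un_norm b m)
        (by positivity : 0 ≤ |vt true a V 0 y n - vt true a V 0 y' n| / 2)
      have h6 : 0 ≤ |vt true a V 0 y n - vt true a V 0 y' n| := abs_nonneg _
      have h7 : |vt true a V 0 y n - vt true a V 0 y' n| ≤
          |a n| * (|√y - √y'| * |V (n * y)| + √y' * |V (n * y) - V (n * y')|) := by
        rw [vt_true, vt_true]
        have h8 : √y * (a n * V (n * y)) - √y' * (a n * V (n * y')) =
            a n * ((√y - √y') * V (n * y) + √y' * (V (n * y) - V (n * y'))) := by ring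
        rw [h8, abs_mul]
        refine mul_le_mul_of_nonneg_left ?_ (abs_nonneg _)
        refine (abs_add_le _ _).trans ?_
        rw [abs_mul, abs_mul, abs_of_nonneg (Real.sqrt_nonneg y')]
      have h8 : |√y - √y'| ≤ P * δ / √h₀ := by
        refine (sqrt_lip (h₀ / P) y y' hl0 hy0 hy0').trans ?_
        rw [Real.sqrt_div hh₀.le]
        have hsP : √P ≤ P := by
          rw [Real.sqrt_le_left hP0.le]
          nlinarith
        have hsP0 : 0 < √P := Real.sqrt_pos.2 hP0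
        calc |y - y'| / (√h₀ / √P) = √P * |y - y'| / √h₀ := by field_simp
          _ ≤ P * δ / √h₀ := div_le_div_of_nonneg_right (mul_le_mul hsP hyy (abs_nonneg _) hP0.le) hsh.le
      have h9 : |V (n * y)| ≤ C₀ := by
        refine (hV (n * y) (by positivity)).2.1.trans ?_
        have h2 : Real.exp (-(c₀ * (n * y))) ≤ 1 := by
          rw [Real.exp_le_one_iff]
          have : 0 ≤ c₀ * (n * y) := by positivity
          linarith
        have := mul_le_mul_of_nonneg_left h2 hC₀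
        linarith
      have h10 : |V (n * y) - V (n * y')| ≤ C₀ / h₀ * P * δ := by
        have h11 := V_lip hc₀ hC₀ hV (s := n * (h₀ / P)) (by positivity) (u := n * y) (v := n * y')
          (mul_le_mul_of_nonneg_left hy0 hn0.le) (mul_le_mul_of_nonneg_left hy0' hn0.le)
        refine h11.trans ?_
        rw [← mul_sub, abs_mul, abs_of_pos hn0]
        calc C₀ / (n * (h₀ / P)) * (n * |y - y'|) = C₀ / h₀ * P * |y - y'| := by field_simp
          _ ≤ C₀ / h₀ * P * δ := mul_le_mul_of_nonneg_left hyy (by positivity)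
      have hsy : √y' ≤ √h₁ := by
        apply Real.sqrt_le_sqrt
        exact hy1'.trans (div_le_self hh₁ hP)
      have h11 : |vt true a V 0 y n - vt true a V 0 y' n| ≤
          A * P ^ 2 * (P * δ / √h₀ * C₀ + √h₁ * (C₀ / h₀ * P * δ)) := by
        refine h7.trans (mul_le_mul haP ?_ (by positivity) (by positivity))
        exact add_le_add (mul_le_mul h8 h9 (abs_nonneg _) (by positivity))
          (mul_le_mul hsy h10 (abs_nonneg _) (Real.sqrt_nonneg _))
      have h12 : A * P ^ 2 * (P * δ / √h₀ * C₀ + √h₁ * (C₀ / h₀ * P * δ)) =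
          (A * C₀ / √h₀ + A * √h₁ * C₀ / h₀) * P ^ 3 * δ := by ring
      rw [h12] at h11
      linarith
    · rw [sub_zero, norm_zero]
      positivity
  unfold us at hbd ⊢
  rw [norm_mul, ee_norm, mul_one] at hbd
  by_cases hm : (m.natAbs : ℝ) ≤ M
  · have hmP : |(m : ℝ)| ≤ P ^ 2 := by
      have h1 : |(m : ℝ)| = (m.natAbs : ℝ) := by
        rw [Nat.cast_natAbs, Int.cast_abs]
      rw [h1]
      exact hm.trans hM
    have h1 : ut b a V M y m * ee (m * u) - ut b a V M y' m * ee (m * u') =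
        ut b a V M y m * (ee (m * u) - ee (m * u')) + (ut b a V M y m - ut b a V M y' m) * ee (m * u') := by ring
    rw [h1]
    refine (norm_add_le _ _).trans ?_
    rw [norm_mul, norm_mul, ee_norm, mul_one]
    have h2 : ‖ee (m * u) - ee (m * u')‖ ≤ 2 * Real.pi * (P ^ 2 * δ) := by
      refine (ee_lip _ _).trans ?_
      rw [← mul_sub, abs_mul]
      exact mul_le_mul_of_nonneg_left (mul_le_mul hmP huu (abs_nonneg _) (by positivity)) (by positivity)
    have h3 : ‖ut b a V M y m‖ * ‖ee (m * u) - ee (m * u')‖ ≤ √h₁ * A * C₀ * P ^ 2 * (2 * Real.pi * (P ^ 2 * δ)) :=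
      mul_le_mul hbd h2 (norm_nonneg _) (by positivity)
    have h4 : (A * C₀ / √h₀ + A * √h₁ * C₀ / h₀) * P ^ 3 * δ ≤ (A * C₀ / √h₀ + A * √h₁ * C₀ / h₀) * P ^ 4 * δ := by
      refine mul_le_mul_of_nonneg_right (mul_le_mul_of_nonneg_left ?_ (by positivity)) hδ
      exact pow_le_pow_right₀ hP (by norm_num)
    have h5 : √h₁ * A * C₀ * P ^ 2 * (2 * Real.pi * (P ^ 2 * δ)) = √h₁ * A * C₀ * (2 * Real.pi) * P ^ 4 * δ := by ring
    have h6 : (A * C₀ / √h₀ + A * √h₁ * C₀ / h₀ + √h₁ * A * C₀ * (2 * Real.pi)) * P ^ 4 * δ =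
        (A * C₀ / √h₀ + A * √h₁ * C₀ / h₀) * P ^ 4 * δ + √h₁ * A * C₀ * (2 * Real.pi) * P ^ 4 * δ := by ring
    rw [h6]
    linarith
  · rw [ut_eq, ut_eq, if_neg (fun h => hm h.2), if_neg (fun h => hm h.2), zero_mul, zero_mul, sub_zero, norm_zero]
    positivity

/-- shifts modulo `1` -/
theorem us_fract (b : Bool) (a : ℕ → ℝ) (V : ℝ → ℝ) (M y u : ℝ) (m : ℤ) :
    us b a V M y u m = us b a V M y (Int.fract u) m := by
  unfold us
  congr 1
  have h := Int.floor_add_fract u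
  have h1 : (m : ℝ) * u = ((m * ⌊u⌋ : ℤ) : ℝ) + m * Int.fract u := by
    nth_rewrite 1 [← h]
    push_cast
    ring
  rw [h1, ee_add, ee_int, one_mul]

end Pool.Agent.Q176.L2Y.YC
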