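import Pool.Agent.Q176.L2Y.YCb
import Pool.Agent.Q150.L2.GQd

/-!
# Project L2Y (helper255), job YC, part 3: the family of functions
-/

set_option autoImplicit false

namespace Pool.Agent.Q176.L2Y.YC

open Filter Topology MeasureTheory Finset
open Pool.Agent.Q255.IC Pool.Agent.Q255.IR Pool.Agent.Q255.EP Pool.Agent.Q255.L2 Pool.Agent.Q255.L2Y
open Pool.Agent.Q65.L2.Fou (ee_norm ee_add ee_int ee_cont)
open Pool.Agent.Q176.L2.GMC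

/-- the coefficients cut off at `R` -/
noncomputable def uc (b : Bool) (a : ℕ → ℝ) (V : ℝ → ℝ) (M y u R : ℝ) (m : ℤ) : ℂ :=
  if (m.natAbs : ℝ) ≤ R then us b a V M y u m else 0

/-- the functions of the scale `J` -/
noncomputable def YF {ι : Type} [Fintype ι] (a : ι → ℕ → ℝ) (V : ι → ℝ → ℝ) (h₀ h₁ η : ℝ) (Z L J : ℕ) :
    Finset (ℤ → ℂ) := by
  classical
  exact Finset.image (fun p : ι × Bool × ℕ × ℕ => uc p.2.1 (a p.1) (V p.1) (4 ^ J) (h₀ / 2 ^ J + p.2.2.1 / 2 ^ (L * J))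
    (p.2.2.2 / 2 ^ (L * J)) ((2 : ℝ) ^ ((1 + η) * J)))
    (univ ×ˢ univ ×ˢ ((range (Z * 2 ^ (L * J) + 1)).filter fun l : ℕ => h₀ / 2 ^ J + (l : ℝ) / 2 ^ (L * J) ≤ h₁ / 2 ^ J) ×ˢ
      range (2 ^ (L * J)))

theorem mem_YF {ι : Type} [Fintype ι] {a : ι → ℕ → ℝ} {V : ι → ℝ → ℝ} {h₀ h₁ η : ℝ} {Z L J : ℕ} {β : ℤ → ℂ}
    (h : β ∈ YF a V h₀ h₁ η Z L J) : ∃ (i : ι) (b : Bool) (y u : ℝ), h₀ / 2 ^ J ≤ y ∧ y ≤ h₁ / 2 ^ J ∧
      β = uc b (a i) (V i) (4 ^ J) y u ((2 : ℝ) ^ ((1 + η) * J)) := by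
  classical
  unfold YF at h
  rw [mem_image] at h
  obtain ⟨⟨i, b, l, p⟩, h1, h2⟩ := h
  rw [mem_product, mem_product, mem_product, mem_filter] at h1
  refine ⟨i, b, h₀ / 2 ^ J + l / 2 ^ (L * J), p / 2 ^ (L * J), ?_, h1.2.2.1.2, h2.symm⟩
  have : (0 : ℝ) ≤ l / 2 ^ (L * J) := by positivity
  linarith

theorem YF_mem {ι : Type} [Fintype ι] (a : ι → ℕ → ℝ) (V : ι → ℝ → ℝ) {h₀ h₁ : ℝ} (η : ℝ) {Z L J : ℕ} (i : ι) (b : Bool)
    (l p : ℕ) (h1 : l < Z * 2 ^ (L * J) + 1) (h2 : h₀ / 2 ^ J + (l : ℝ) / 2 ^ (L * J) ≤ h₁ / 2 ^ J)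
    (h3 : p < 2 ^ (L * J)) : uc b (a i) (V i) (4 ^ J) (h₀ / 2 ^ J + l / 2 ^ (L * J)) (p / 2 ^ (L * J))
      ((2 : ℝ) ^ ((1 + η) * J)) ∈ YF a V h₀ h₁ η Z L J := by
  classical
  unfold YF
  rw [mem_image]
  refine ⟨(i, b, l, p), ?_, rfl⟩
  rw [mem_product, mem_product, mem_product, mem_filter, mem_range, mem_range]
  exact ⟨mem_univ _, mem_univ _, ⟨h1, h2⟩, h3⟩

theorem card_YF {ι : Type} [Fintype ι] (a : ι → ℕ → ℝ) (V : ι → ℝ → ℝ) (h₀ h₁ η : ℝ) (Z L : ℕ) :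
    ∃ A' : ℝ, 0 ≤ A' ∧ ∀ J, ((YF a V h₀ h₁ η Z L J).card : ℝ) ≤ Real.exp (A' * ((J : ℝ) + 1)) := by
  classical
  obtain ⟨A', hA'⟩ := card_all (max (Fintype.card ι : ℝ) L) Z L
  refine ⟨|A'|, abs_nonneg _, fun J => ?_⟩
  have h1 : (YF a V h₀ h₁ η Z L J).card ≤ (Fintype.card ι * 2 ^ (L * J)) * ((Z * 2 ^ (L * J) + 1) * 2) := by
    unfold YF
    refine card_image_le.trans ?_
    rw [card_product, card_product, card_product, card_univ, card_univ, Fintype.card_bool, card_range]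
    have h2 := card_filter_le (range (Z * 2 ^ (L * J) + 1)) fun l : ℕ => h₀ / 2 ^ J + (l : ℝ) / 2 ^ (L * J) ≤ h₁ / 2 ^ J
    rw [card_range] at h2
    calc _ ≤ Fintype.card ι * (2 * ((Z * 2 ^ (L * J) + 1) * 2 ^ (L * J))) := by
          refine Nat.mul_le_mul_left _ (Nat.mul_le_mul_left _ (Nat.mul_le_mul_right _ h2))
      _ = _ := by ring
  have h2 : (((Fintype.card ι * 2 ^ (L * J) : ℕ)) : ℝ) ≤ max (Fintype.card ι : ℝ) L *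
      ((2 : ℝ) ^ J) ^ (max (Fintype.card ι : ℝ) L) := by
    push_cast
    refine mul_le_mul (le_max_left _ _) ?_ (by positivity) (le_trans (Nat.cast_nonneg _) (le_max_left _ _))
    have h3 : (2 : ℝ) ^ (L * J) = ((2 : ℝ) ^ J) ^ (L : ℝ) := by
      rw [Real.rpow_natCast, ← pow_mul, mul_comm]
    rw [h3]
    exact Real.rpow_le_rpow_of_exponent_le (one_le_pow₀ (by norm_num)) (le_max_right _ _)
  have h3 := hA' J _ h2
  have h4 : ((YF a V h₀ h₁ η Z L J).card : ℝ) ≤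
      (((Fintype.card ι * 2 ^ (L * J)) * ((Z * 2 ^ (L * J) + 1) * 2) : ℕ) : ℝ) := by exact_mod_cast h1
  refine h4.trans (h3.trans (Real.exp_le_exp.2 ?_))
  exact mul_le_mul_of_nonneg_right (le_abs_self _) (by positivity)

/-- the points of the net -/
theorem netY {h₀ h₁ y u : ℝ} (Z L J : ℕ) (hZ : h₁ ≤ Z) (hh₀ : 0 < h₀) (h1 : h₀ / 2 ^ J ≤ y) (h2 : y ≤ h₁ / 2 ^ J) :
    ∃ l p : ℕ, l < Z * 2 ^ (L * J) + 1 ∧ p < 2 ^ (L * J) ∧ h₀ / 2 ^ J + (l : ℝ) / 2 ^ (L * J) ≤ y ∧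
      |y - (h₀ / 2 ^ J + (l : ℝ) / 2 ^ (L * J))| ≤ 1 / 2 ^ (L * J) ∧
      |Int.fract u - (p : ℝ) / 2 ^ (L * J)| ≤ 1 / 2 ^ (L * J) := by
  obtain ⟨P, hP⟩ : ∃ P : ℝ, P = 2 ^ (L * J) := ⟨_, rfl⟩
  have hP0 : 0 < P := by
    rw [hP]
    positivity
  have h2J : (1 : ℝ) ≤ 2 ^ J := one_le_pow₀ (by norm_num)
  obtain ⟨s, hs⟩ : ∃ s : ℝ, s = h₀ / 2 ^ J := ⟨_, rfl⟩
  have hs0 : 0 < s := by
    rw [hs]
    positivity
  obtain ⟨l, hl⟩ : ∃ l : ℕ, l = ⌊(y - s) * P⌋₊ := ⟨_, rfl⟩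
  obtain ⟨p, hp⟩ : ∃ p : ℕ, p = ⌊Int.fract u * P⌋₊ := ⟨_, rfl⟩
  rw [← hs] at h1
  have h3 : 0 ≤ (y - s) * P := mul_nonneg (by linarith) hP0.le
  have h4 : (l : ℝ) ≤ (y - s) * P := by
    rw [hl]
    exact Nat.floor_le h3
  have h5 : (y - s) * P < l + 1 := by
    rw [hl]
    exact Nat.lt_floor_add_one _
  have h6 : (l : ℝ) / P ≤ y - s := by
    rw [div_le_iff₀ hP0]
    exact h4
  have h7 : y - s ≤ (l + 1) / P := by
    rw [le_div_iff₀ hP0]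
    exact h5.le
  have hf0 := Int.fract_nonneg u
  have hf1 := Int.fract_lt_one u
  have h4' : (p : ℝ) ≤ Int.fract u * P := by
    rw [hp]
    exact Nat.floor_le (mul_nonneg hf0 hP0.le)
  have h5' : Int.fract u * P < p + 1 := by
    rw [hp]
    exact Nat.lt_floor_add_one _
  have h6' : (p : ℝ) / P ≤ Int.fract u := by
    rw [div_le_iff₀ hP0]
    exact h4'
  have h7' : Int.fract u ≤ (p + 1) / P := by
    rw [le_div_iff₀ hP0]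
    exact h5'.le
  rw [add_div] at h7 h7'
  have hPi : 0 < 1 / P := by positivity
  refine ⟨l, p, ?_, ?_, ?_, ?_, ?_⟩
  · have h8 : (l : ℝ) ≤ Z * P := by
      refine h4.trans (mul_le_mul_of_nonneg_right ?_ hP0.le)
      have hh : 0 ≤ h₁ := by
        by_contra hcon
        push Not at hcon
        have : h₁ / 2 ^ J < 0 := div_neg_of_neg_of_pos hcon (by positivity)
        linarith
      have h9 : h₁ / 2 ^ J ≤ h₁ := div_le_self hh h2J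
      linarith
    rw [hP] at h8
    have h9 : l ≤ Z * 2 ^ (L * J) := by exact_mod_cast h8
    omega
  · have h8 : (p : ℝ) < 2 ^ (L * J) := by
      rw [← hP]
      nlinarith
    exact_mod_cast h8
  · rw [← hP, ← hs]
    linarith
  · rw [← hP, ← hs, abs_le]
    constructor <;> linarith
  · rw [← hP, abs_le]
    constructor <;> linarith

/-- the counts -/
theorem cntY (hYB : Pool.Agent.Q255.L2Y.S_YB) {ι : Type} [Fintype ι] (a : ι → ℕ → ℝ) (V V' : ι → ℝ → ℝ) (hCoef : Coef (fun _ => (1 : ℝ)) a)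
    {C₀ c₀ A h₀ h₁ : ℝ} (hc₀ : 0 < c₀) (hC₀ : 0 ≤ C₀) (hh₀ : 0 < h₀) (hV : ∀ i, Ad C₀ c₀ (V i) (V' i))
    (ha : ∀ i, ∀ n : ℕ, 1 ≤ n → |a i n| ≤ A * n) (k : ℕ) (hk : 1 ≤ k) : ∃ η c C : ℝ, 0 < η ∧ η ≤ 1 ∧ 0 < c ∧ 0 ≤ C ∧
      ∀ (Z L J : ℕ) (β : Fin k → ℤ → ℂ) (h : ℤ), (∀ j, β j ∈ YF a V h₀ h₁ η Z L J) →
        U1 k (2 ^ (2 * J)) h β ≤ C * (2 : ℝ) ^ (-(c * J)) ∧ U2 k (2 ^ (2 * J)) h β ≤ C * (2 : ℝ) ^ (-(c * J)) := by
  classical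
  obtain ⟨η, c, C, hη, hη1, hc, hC, h1⟩ := hYB ι a hCoef k hk
  obtain ⟨K, hK⟩ : ∃ K : ℝ, K = √h₁ * C₀ + 1 := ⟨_, rfl⟩
  have hK1 : 1 ≤ K := by
    rw [hK]
    have : 0 ≤ √h₁ * C₀ := by positivity
    linarith
  have hK0 : 0 < K := by linarith
  refine ⟨η, c, K ^ k * (K ^ k * C), hη, hη1, hc, by positivity, ?_⟩
  intro Z L J β h hβ
  have hβ' := fun j => mem_YF (hβ j)
  choose i b y u hy0 hy1 hβe using hβ'
  have hP1 : (1 : ℝ) ≤ 2 ^ J := one_le_pow₀ (by norm_num)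
  have h4 : (4 : ℝ) ^ J = (2 ^ J) ^ 2 := by
    rw [show (4 : ℝ) = 2 ^ 2 by norm_num, ← pow_mul, ← pow_mul, mul_comm]
  have hs : √((2 : ℝ) ^ J) = (2 : ℝ) ^ ((J : ℝ) / 2) := by
    rw [Real.sqrt_eq_rpow, ← Real.rpow_natCast, ← Real.rpow_mul (by norm_num)]
    congr 1
    ring
  obtain ⟨γ, hγ⟩ : ∃ γ : Fin k → ℤ → ℂ, γ = fun j m => ((K⁻¹ : ℝ) : ℂ) * β j m := ⟨_, rfl⟩
  have hnorm : ∀ j m, ‖β j m‖ = K * ‖γ j m‖ := by
    intro j m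
    rw [hγ]
    simp only
    rw [norm_mul, Complex.norm_real, Real.norm_eq_abs, abs_of_pos (by positivity), ← mul_assoc,
      mul_inv_cancel₀ hK0.ne', one_mul]
  have h2 := h1 J (2 ^ (2 * J)) i γ h (by
    intro j m
    have h3 : ‖β j m‖ ≤ √h₁ * C₀ / √(2 ^ J) * |a (i j) m.natAbs| := by
      rw [hβe j]
      unfold uc
      split_ifs
      · exact (us_bd hc₀ hC₀ hh₀ (hV (i j)) (ha (i j)) hP1 (b j) (by rw [h4]) (hy0 j) (hy1 j) (u j) m).1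
      · rw [norm_zero]
        positivity
    have h5 : K * ‖γ j m‖ ≤ K * ((2 : ℝ) ^ (-((J : ℝ) / 2)) * |a (i j) m.natAbs|) := by
      rw [← hnorm]
      refine h3.trans ?_
      rw [Real.rpow_neg (by norm_num), ← hs]
      have h6 : √h₁ * C₀ ≤ K := by
        rw [hK]
        linarith
      have hsp : 0 < √((2 : ℝ) ^ J) := Real.sqrt_pos.2 (by positivity)
      calc √h₁ * C₀ / √(2 ^ J) * |a (i j) m.natAbs| ≤ K / √(2 ^ J) * |a (i j) m.natAbs| :=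
            mul_le_mul_of_nonneg_right (div_le_div_of_nonneg_right h6 hsp.le) (abs_nonneg _)
        _ = _ := by
            rw [div_eq_mul_inv]
            ring
    exact le_of_mul_le_mul_left h5 hK0) (by
    intro j m hm
    rw [hγ]
    simp only
    rw [hβe j]
    unfold uc
    rw [if_neg (not_le.2 hm), mul_zero]) le_rfl
  have hKk : 1 ≤ K ^ k := one_le_pow₀ hK1
  have hprod : ∀ m : Fin k → ℤ, ∏ j, ‖β j (m j)‖ = K ^ k * ∏ j, ‖γ j (m j)‖ := by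
    intro m
    simp only [hnorm]
    rw [prod_mul_distrib, prod_const, card_univ, Fintype.card_fin]
  have hU1 : U1 k (2 ^ (2 * J)) h β = K ^ k * U1 k (2 ^ (2 * J)) h γ := by
    unfold U1
    rw [mul_sum]
    exact sum_congr rfl fun m _ => hprod m
  have hU2 : U2 k (2 ^ (2 * J)) h β = K ^ k * (K ^ k * U2 k (2 ^ (2 * J)) h γ) := by
    unfold U2
    rw [mul_sum, mul_sum]
    refine sum_congr rfl fun m _ => ?_
    rw [hprod, hprod]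
    ring
  have hp0 : (0 : ℝ) < (2 : ℝ) ^ (-(c * J)) := by positivity
  constructor
  · rw [hU1]
    calc K ^ k * U1 k (2 ^ (2 * J)) h γ ≤ K ^ k * (C * (2 : ℝ) ^ (-(c * J))) :=
          mul_le_mul_of_nonneg_left h2.1 (by positivity)
      _ = 1 * (K ^ k * C * (2 : ℝ) ^ (-(c * J))) := by ring
      _ ≤ K ^ k * (K ^ k * C * (2 : ℝ) ^ (-(c * J))) := mul_le_mul_of_nonneg_right hKk (by positivity)
      _ = _ := by ring
  · rw [hU2]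
    calc K ^ k * (K ^ k * U2 k (2 ^ (2 * J)) h γ) ≤ K ^ k * (K ^ k * (C * (2 : ℝ) ^ (-(c * J)))) :=
          mul_le_mul_of_nonneg_left (mul_le_mul_of_nonneg_left h2.2 (by positivity)) (by positivity)
      _ = _ := by ring

/-- approximation by a member of the family -/
theorem apxY {ι : Type} [Fintype ι] (a : ι → ℕ → ℝ) (V V' : ι → ℝ → ℝ) {C₀ c₀ A h₀ h₁ η : ℝ} (hc₀ : 0 < c₀)
    (hC₀ : 0 ≤ C₀) (hA : 0 ≤ A) (hh₀ : 0 < h₀) (hη : 0 < η) (hV : ∀ i, Ad C₀ c₀ (V i) (V' i))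
    (ha : ∀ i, ∀ n : ℕ, 1 ≤ n → |a i n| ≤ A * n) (k Z : ℕ) (hZ : h₁ ≤ Z) : ∃ K : ℝ, 1 ≤ K ∧
      ∀ (J : ℕ) (i : ι) (b : Bool) (u y : ℝ), h₀ / 2 ^ J ≤ y → y ≤ h₁ / 2 ^ J →
        ∃ β' ∈ YF a V h₀ h₁ η Z (4 * k + 5) J, ∀ m : ℤ, ‖us b (a i) (V i) (4 ^ J) y u m‖ ≤ K * (2 ^ J) ^ 2 ∧
          ‖β' m‖ ≤ K * (2 ^ J) ^ 2 ∧ ‖us b (a i) (V i) (4 ^ J) y u m - β' m‖ ≤ K / (2 ^ J) ^ (4 * k + 1) := by
  obtain ⟨K₁, hK₁⟩ : ∃ K₁ : ℝ, K₁ = √h₁ * A * C₀ := ⟨_, rfl⟩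
  have hK₁0 : 0 ≤ K₁ := by
    rw [hK₁]
    positivity
  obtain ⟨K₂, hK₂⟩ : ∃ K₂ : ℝ, K₂ = A * C₀ / √h₀ + A * √h₁ * C₀ / h₀ + √h₁ * A * C₀ * (2 * Real.pi) := ⟨_, rfl⟩
  have hpi := Real.pi_pos
  have hK₂0 : 0 ≤ K₂ := by
    rw [hK₂]
    positivity
  obtain ⟨r, hr⟩ : ∃ r : ℕ, r = ⌈(4 * (k : ℝ) + 3) / η⌉₊ := ⟨_, rfl⟩
  have hr' : (4 * (k : ℝ) + 3) ≤ r * η := by
    rw [← div_le_iff₀ hη, hr]
    exact Nat.le_ceil _
  obtain ⟨K₃, hK₃⟩ : ∃ K₃ : ℝ, K₃ = K₁ * (r.factorial / (c₀ * h₀) ^ r) := ⟨_, rfl⟩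
  have hK₃0 : 0 ≤ K₃ := by
    rw [hK₃]
    positivity
  refine ⟨1 + K₁ + K₂ + K₃, by linarith, ?_⟩
  intro J i b u y hy0 hy1
  obtain ⟨l, p, hl, hp, hly, hyl, hup⟩ := netY (u := u) Z (4 * k + 5) J hZ hh₀ hy0 hy1
  obtain ⟨y', hy'⟩ : ∃ y' : ℝ, y' = h₀ / 2 ^ J + (l : ℝ) / 2 ^ ((4 * k + 5) * J) := ⟨_, rfl⟩
  obtain ⟨u', hu'⟩ : ∃ u' : ℝ, u' = (p : ℝ) / 2 ^ ((4 * k + 5) * J) := ⟨_, rfl⟩
  rw [← hy'] at hly hyl
  rw [← hu'] at hup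
  have hy'0 : h₀ / 2 ^ J ≤ y' := by
    rw [hy']
    have : (0 : ℝ) ≤ (l : ℝ) / 2 ^ ((4 * k + 5) * J) := by positivity
    linarith
  have hy'1 : y' ≤ h₁ / 2 ^ J := hly.trans hy1
  have hmem := YF_mem a V η (Z := Z) i b l p hl (by rw [← hy']; exact hy'1) hp
  rw [← hy', ← hu'] at hmem
  have hP1 : (1 : ℝ) ≤ 2 ^ J := one_le_pow₀ (by norm_num)
  have h4 : (4 : ℝ) ^ J = (2 ^ J) ^ 2 := by
    rw [show (4 : ℝ) = 2 ^ 2 by norm_num, ← pow_mul, ← pow_mul, mul_comm]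
  refine ⟨_, hmem, fun m => ?_⟩
  have hb := us_bd hc₀ hC₀ hh₀ (hV i) (ha i) hP1 b (by rw [h4] : (4 : ℝ) ^ J ≤ (2 ^ J) ^ 2) hy0 hy1 u m
  have hb' := us_bd hc₀ hC₀ hh₀ (hV i) (ha i) hP1 b (by rw [h4] : (4 : ℝ) ^ J ≤ (2 ^ J) ^ 2) hy'0 hy'1 u' m
  have hb1 := hb.2.1 hA
  have hb1' := hb'.2.1 hA
  rw [← hK₁] at hb1 hb1'
  obtain ⟨P, hP⟩ : ∃ P : ℝ, P = 2 ^ J := ⟨_, rfl⟩
  have hPL : (2 : ℝ) ^ ((4 * k + 5) * J) = P ^ (4 * k + 5) := by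
    rw [hP, ← pow_mul, mul_comm]
  rw [hPL] at hup hyl
  have hlip := us_lip hc₀ hC₀ hA hh₀ (hV i) (ha i) hP1 b (by rw [h4] : (4 : ℝ) ^ J ≤ (2 ^ J) ^ 2) hy0 hy1 hy'0 hy'1
    hyl hup m
  rw [← us_fract, ← hK₂] at hlip
  rw [← hP] at hb1 hb1' hlip ⊢
  have hP0 : 0 < P := by
    rw [hP]
    positivity
  have hPP : 0 ≤ P ^ 2 := by positivity
  refine ⟨?_, ?_, ?_⟩
  · refine hb1.trans (mul_le_mul_of_nonneg_right ?_ hPP)
    linarith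
  · unfold uc
    split_ifs
    · refine hb1'.trans (mul_le_mul_of_nonneg_right ?_ hPP)
      linarith
    · rw [norm_zero]
      positivity
  · unfold uc
    split_ifs with hR
    · refine hlip.trans ?_
      have h5 : K₂ * P ^ 4 * (1 / P ^ (4 * k + 5)) = K₂ / P ^ (4 * k + 1) := by
        rw [show 4 * k + 5 = (4 * k + 1) + 4 by ring, pow_add]
        field_simp
      rw [h5]
      exact div_le_div_of_nonneg_right (by linarith) (by positivity)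
    · rw [sub_zero]
      have hR' : (2 : ℝ) ^ J * (2 : ℝ) ^ (η * J) ≤ (m.natAbs : ℝ) := by
        have h5 : (2 : ℝ) ^ J * (2 : ℝ) ^ (η * J) = (2 : ℝ) ^ ((1 + η) * J) := by
          rw [← Real.rpow_natCast, ← Real.rpow_add (by norm_num)]
          congr 1
          ring
        rw [h5]
        exact (not_le.1 hR).le
      have h6 := hb.2.2 ((2 : ℝ) ^ (η * J)) hA hR'
      rw [← hK₁, ← hP] at h6
      have h7 : Real.exp (-(c₀ * h₀ * (2 : ℝ) ^ (η * J))) ≤ r.factorial / (c₀ * h₀) ^ r / P ^ (4 * k + 3) := by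
        refine (exp_pow r (by positivity)).trans ?_
        rw [mul_pow, div_div]
        refine div_le_div_of_nonneg_left (by positivity) (by positivity) ?_
        refine mul_le_mul_of_nonneg_left ?_ (by positivity)
        rw [← Real.rpow_natCast ((2 : ℝ) ^ (η * J)), ← Real.rpow_mul (by norm_num), hP, ← pow_mul, ← Real.rpow_natCast]
        refine Real.rpow_le_rpow_of_exponent_le (by norm_num) ?_
        push_cast
        have h8 := mul_le_mul_of_nonneg_right hr' (Nat.cast_nonneg (α := ℝ) J)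
        linarith
      refine h6.trans ?_
      calc K₁ * P ^ 2 * Real.exp (-(c₀ * h₀ * (2 : ℝ) ^ (η * J))) ≤
            K₁ * P ^ 2 * (r.factorial / (c₀ * h₀) ^ r / P ^ (4 * k + 3)) :=
            mul_le_mul_of_nonneg_left h7 (by positivity)
        _ = K₃ / P ^ (4 * k + 1) := by
            rw [hK₃, show 4 * k + 3 = (4 * k + 1) + 2 by ring, pow_add]
            field_simp
        _ ≤ _ := div_le_div_of_nonneg_right (by linarith) (by positivity)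

end Pool.Agent.Q176.L2Y.YC
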